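import Pool.Agent.helper15.DH.Spec

/-!
# Project LDH (MP_4467b5_nt): the density hypothesis for `σ > 3/4` in every interval of length `≥ T^(1/4)`

RULES. Row `XXX`: file `Pool/Agent/<seat>/LDH/XXX.lean`, `import Pool.Agent.helper5.LDH.Spec` (plus library files named in the
docstring), `set_option autoImplicit false`, `namespace Pool.Agent.LDH`, theorem line exactly as in the lock note (any other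
`_stmt` of this file may be added as a hypothesis, no circles). Auxiliary lemmas are prefixed `XXX_`. No straight double quotes,
no convert / congr!. Land, note DONE + path, one line to helper5.

THEOREM (`FIN_stmt`). For `s₀ > 3/4`, `ε > 0` there is `C` such that every interval `(U, U+H] ⊂ (0, T]` of length `H ≥ T^(1/4)`
contains the imaginary parts of at most `C H^(2(1-σ)+ε)` zeros with `Re ≥ σ`, for all `s₀ ≤ σ ≤ 1`. Paper proof: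
/team-store/H7_MP_4467b5_nt_helper5.md.

Library: `DP N a u = ∑ n ∈ Ioc N (2N), a n n^(-iu)` (helper15/DH/Defs), `d n` = number of divisors (helper84/DM), `mult`;
`Pool.Agent.helper59.DM.DV` (`divisor_bound`), `Pool.Agent.helper63.ED.LC` (`local_count`, `mult_le`),
`Pool.Agent.helper63.ED.PW` (`pow_poly`), `Pool.Agent.helper71.ED.CR` (`CR_dyadic`, `CR_cut`), `Pool.Agent.helper97.ED.FN`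
(`FN_low`), `Pool.Agent.helper15.DH.Assembly` (`Pool.Agent.DH.fin`), `Pool.Agent.helper26.DH.TAY` (`TAY`),
`Pool.Agent.helper86.LV.All` (`Pool.Agent.LV.large_values`), `Pool.Agent.helper85.LD.G1` (formula for `ζ`).
-/

set_option autoImplicit false

open Complex MeasureTheory

namespace Pool.Agent.LDH

open Pool.Agent.helper84.DM Pool.Agent.helper78.ED Pool.Agent.DH

/-- `e(x) = exp(2πix)` -/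
noncomputable def ee (x : ℝ) : ℂ := Complex.exp (((2 * Real.pi * x : ℝ) : ℂ) * I)

/-- `(n+h)^(-it)` times the conjugate of `n^(-it)` -/
noncomputable def PH (t : ℝ) (h n : ℕ) : ℂ :=
  ((n + h : ℕ) : ℂ) ^ (-((t : ℂ) * I)) * (starRingEnd ℂ) ((n : ℂ) ^ (-((t : ℂ) * I)))

/-- `log ((n+h)/n)` -/
noncomputable def lg (h n : ℕ) : ℝ := Real.log (((n + h : ℕ) : ℝ) / (n : ℝ))

/-- the Gauss weight of the pair `n, n + h` -/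
noncomputable def gg (H : ℝ) (h n : ℕ) : ℝ := Real.exp (-(H * lg h n) ^ 2 / 4)

/-- the Gauss mean square of `∑ w(n) n^(-iu)`, `N < n ≤ 2N`, around `t` -/
noncomputable def JJ (N : ℕ) (w : ℕ → ℝ) (H t : ℝ) : ℝ :=
  ∫ u : ℝ, Real.exp (-((u - t) / H) ^ 2) * ‖DP N (fun n => ((w n : ℝ) : ℂ)) u‖ ^ 2

/-- weights on `(N, 2N]` bounded by `1`, of variation at most `B` -/
def Wt (N : ℕ) (B : ℝ) (w : ℕ → ℝ) : Prop :=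
  (∀ n ∈ Finset.Ioc N (2 * N), |w n| ≤ 1) ∧ ∑ n ∈ Finset.Ioo N (2 * N), |w (n + 1) - w n| ≤ B

/-- the weights of `TAY` -/
noncomputable def ww (N : ℕ) (σ : ℝ) (j : ℕ) (n : ℕ) : ℝ :=
  ((N : ℝ) / n) ^ σ * Real.log ((n : ℝ) / N) ^ j

/-- coefficients of the product of the mollifier of length `X` and the zeta sum of length `Y` -/
noncomputable def cY (X Y k : ℕ) : ℂ :=
  ∑ m ∈ k.divisors, if m ≤ X ∧ k / m ≤ Y then ((ArithmeticFunction.moebius m : ℤ) : ℂ) else 0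

/-! ## Part 1: exponential sums -/

/-- **KL** (medium). uses: nothing. Kusmin–Landau. `g n = f (n+1) - f n` for `a < n < b`. `ee (f n) = (ee (f n) - ee (f (n+1))) C n`,
`C n = 1/(1 - ee (g n)) = (1 + i cot (π g n))/2` (`‖1 - ee (g n)‖ = 2 |sin (π g n)| ≥ 4 l`: `sin πx ≥ 2x` on `[0,1/2]`). Abel summation:
`∑ n ∈ Ioc a b, ee (f n) = ee (f (a+1)) C (a+1) + ∑ ee (f n) (C n - C (n-1)) + ee (f b) (1 - C (b-1))`; `cot (π g n)` is monotone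
because `g` is monotone with values in an interval between two integers, so `∑ ‖C n - C (n-1)‖ ≤ cot (π l) ≤ 1/(2l)`; `‖C‖, ‖1 - C‖ ≤ 1/(4l)`
(total `≤ 1/l`). `b ≤ a + 1`: trivial (`2/l ≥ 4`). The decreasing case follows with `-f`, `-m-1` (conjugation). -/
def KL_stmt : Prop := ∀ (f : ℕ → ℝ) (a b : ℕ) (l : ℝ) (m : ℤ), 0 < l → l ≤ 1 / 2 →
  (∀ n, a < n → n < b → (m : ℝ) + l ≤ f (n + 1) - f n ∧ f (n + 1) - f n ≤ m + 1 - l) →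
  ((∀ n, a < n → n + 1 < b → f (n + 1) - f n ≤ f (n + 2) - f (n + 1)) ∨
    (∀ n, a < n → n + 1 < b → f (n + 2) - f (n + 1) ≤ f (n + 1) - f n)) →
  ‖∑ n ∈ Finset.Ioc a b, ee (f n)‖ ≤ 2 / l

/-- **V2** (medium). uses: KL_stmt. Second derivative test, discrete. `N = b - a`. `l ≥ 1`: trivial (`N ≤ N l^(1/2)`). `l < 1`: `g n = f (n+1) - f n`
is increasing on `(a, b)` with increments in `[l, α l]`. `θ = l^(1/2)/2 ≤ 1/2`. For an integer `m` the indices with `|g n - m| < θ` are an interval of at most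
`2θ/l + 1 ≤ 2 l^(-1/2)` integers (trivial bound); the indices with `m + θ ≤ g n ≤ m + 1 - θ` are an interval and give at most `2/θ + 1 = 4 l^(-1/2) + 1` (KL; one extra term).
At most `α l N + 2` values of `m` each (`g` varies by at most `α l N`). Total `≤ (α l N + 2)(7 l^(-1/2)) + 1`. One may e.g. cut the range greedily, or do induction on the number of the `m`. -/
def V2_stmt : Prop := ∀ (f : ℕ → ℝ) (a b : ℕ) (l α : ℝ), a ≤ b → 0 < l → 1 ≤ α →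
  (∀ n, a < n → n + 1 < b → l ≤ f (n + 2) - 2 * f (n + 1) + f n ∧
    f (n + 2) - 2 * f (n + 1) + f n ≤ α * l) →
  ‖∑ n ∈ Finset.Ioc a b, ee (f n)‖ ≤
    20 * α * (((b : ℝ) - a) * l ^ (1 / 2 : ℝ) + l ^ (-(1 / 2) : ℝ))

/-- **WD** (medium). uses: nothing. Weyl–van der Corput. `N = b - a ≥ Q`, `z' n = z n` on `Ioc a b` and `0` outside (work on `ℤ` or shift by `Q`).
`Q ∑ z' n = ∑ k, ∑ q < Q, z' (k + q)`, where at most `N + Q - 1 ≤ 2N` values of `k` contribute; Cauchy–Schwarz: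
`Q² |S|² ≤ (N + Q - 1) ∑ k, |∑ q < Q, z' (k+q)|² ≤ (N + Q - 1) Q (N + 2 ∑ 0 < q < Q, |∑ n, z' (n+q) conj (z' n)|)` (there are `Q - q` pairs with difference `q`). -/
def WD_stmt : Prop := ∀ (z : ℕ → ℂ) (a b Q : ℕ), (∀ n, ‖z n‖ ≤ 1) → 1 ≤ Q → a + Q ≤ b →
  ‖∑ n ∈ Finset.Ioc a b, z n‖ ^ 2 ≤ 2 * (((b : ℝ) - a) / Q) * (((b : ℝ) - a) +
    2 * ∑ q ∈ Finset.Ioo 0 Q, ‖∑ n ∈ Finset.Ioc a (b - q), z (n + q) * (starRingEnd ℂ) (z n)‖)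

/-- **V3** (medium). uses: WD_stmt, V2_stmt. Third derivative test, discrete. `N = b - a`. `l ≥ 1` is trivial. `Q = ⌈l^(-1/3)⌉₊`, `l^(-1/3) ≤ Q ≤ 2 l^(-1/3)`. `Q > N`: `|S| ≤ N ≤ N^(1/2) (2 l^(-1/3))^(1/2)`.
`Q ≤ N`: WD with `z n = ee (f n)`; `z (n+q) conj (z n) = ee (f (n+q) - f n)`, and the second differences of `f (n+q) - f n` are sums of `q` third differences of `f`, in `[q l, α q l]`: V2 gives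
`|S|² ≤ (2N/Q)(N + 2 ∑ q < Q, 20 α (N (q l)^(1/2) + (q l)^(-1/2)))`; `∑ q^(1/2) ≤ Q^(3/2)`, `∑ q^(-1/2) ≤ 2 Q^(1/2)`; so
`|S|² ≤ 2 N²/Q + 80 α N² l^(1/2) Q^(1/2) + 160 α N l^(-1/2) Q^(-1/2) ≤ 116 α N² l^(1/3) + 160 α N l^(-1/3)`. -/
def V3_stmt : Prop := ∀ (f : ℕ → ℝ) (a b : ℕ) (l α : ℝ), a ≤ b → 0 < l → 1 ≤ α →
  (∀ n, a < n → n + 2 < b → l ≤ f (n + 3) - 3 * f (n + 2) + 3 * f (n + 1) - f n ∧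
    f (n + 3) - 3 * f (n + 2) + 3 * f (n + 1) - f n ≤ α * l) →
  ‖∑ n ∈ Finset.Ioc a b, ee (f n)‖ ≤ 20 * α * (((b : ℝ) - a) * l ^ (1 / 6 : ℝ) +
    ((b : ℝ) - a) ^ (1 / 2 : ℝ) * l ^ (-(1 / 6) : ℝ))

/-- **PHD** (medium). uses: nothing. Differences of `φ(x) = log ((x+h)/x)`, `1 ≤ h ≤ N < x ≤ 2N`. `φ''(x) = h (2x+h)/(x² (x+h)²)` is in `[h/(2x³), 2h/x³]` (`x + h ≤ 2x`) and
`-φ'''(x) = 2h (3x² + 3xh + h²)/(x³ (x+h)³)` is in `[3h/(4x⁴), 6h/x⁴]`. The second (third) difference is a value of `φ''` (`φ'''`), or write it as an iterated integral, or use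
`φ(n+2) - 2φ(n+1) + φ(n) = log ((1 - 1/(n+1+h)²)/(1 - 1/(n+1)²))`. -/
def PHD_stmt : Prop := ∀ (N h n : ℕ), 1 ≤ h → h ≤ N → N < n →
  (n + 2 ≤ 2 * N → (h : ℝ) / (16 * (N : ℝ) ^ 3) ≤ lg h (n + 2) - 2 * lg h (n + 1) + lg h n ∧
    lg h (n + 2) - 2 * lg h (n + 1) + lg h n ≤ 2 * h / (N : ℝ) ^ 3) ∧
  (n + 3 ≤ 2 * N → 3 * (h : ℝ) / (64 * (N : ℝ) ^ 4) ≤
      -(lg h (n + 3) - 3 * lg h (n + 2) + 3 * lg h (n + 1) - lg h n) ∧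
    -(lg h (n + 3) - 3 * lg h (n + 2) + 3 * lg h (n + 1) - lg h n) ≤ 6 * h / (N : ℝ) ^ 4)

/-- **E2** (short/medium). uses: V2_stmt, PHD_stmt. `PH t h n = ee (-(t/(2π)) lg h n)`, and `‖∑ ee (-f)‖ = ‖∑ ee f‖` (conjugation). V2 with `f = (t/2π) lg h`,
`l = (t/2π) h/(16 N³)`, `α = 32`, `b - a ≤ N`. -/
def E2_stmt : Prop := ∃ C : ℝ, 0 < C ∧ ∀ (t : ℝ) (N h a b : ℕ), 1 ≤ t → 1 ≤ h → h ≤ N → N ≤ a →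
  a ≤ b → b ≤ 2 * N → ‖∑ n ∈ Finset.Ioc a b, PH t h n‖ ≤
    C * (t ^ (1 / 2 : ℝ) * (h : ℝ) ^ (1 / 2 : ℝ) * (N : ℝ) ^ (-(1 / 2) : ℝ) +
      (N : ℝ) ^ (3 / 2 : ℝ) * t ^ (-(1 / 2) : ℝ) * (h : ℝ) ^ (-(1 / 2) : ℝ))

/-- **E3** (short/medium). uses: V3_stmt, PHD_stmt. As E2 with V3, `f = -(t/2π) lg h`, `l = (t/2π) 3h/(64 N⁴)`, `α = 128`. -/
def E3_stmt : Prop := ∃ C : ℝ, 0 < C ∧ ∀ (t : ℝ) (N h a b : ℕ), 1 ≤ t → 1 ≤ h → h ≤ N → N ≤ a →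
  a ≤ b → b ≤ 2 * N → ‖∑ n ∈ Finset.Ioc a b, PH t h n‖ ≤
    C * (t ^ (1 / 6 : ℝ) * (h : ℝ) ^ (1 / 6 : ℝ) * (N : ℝ) ^ (1 / 3 : ℝ) +
      (N : ℝ) ^ (7 / 6 : ℝ) * t ^ (-(1 / 6) : ℝ) * (h : ℝ) ^ (-(1 / 6) : ℝ))

/-! ## Part 2: the mean square in short intervals -/

/-- **INT** (medium). uses: nothing. Multiply out `‖DP‖²` (finite double sum of `w m w n (m/n)^(-iu)`); `∫ exp(-((u-t)/H)²) exp(-iu y) du = √π H exp(-ity) exp(-H² y²/4)`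
(Mathlib: `fourierIntegral_gaussian` or `integral_cexp_neg_mul_sq_add_real_mul_I` and relatives), `y = log (m/n)`. The pairs `m = n + h` and `n = m + h` are conjugate; `√π ≤ 2`; norms. -/
def INT_stmt : Prop := ∀ (N : ℕ) (w : ℕ → ℝ) (H t : ℝ), 0 < H →
  Integrable (fun u : ℝ => Real.exp (-((u - t) / H) ^ 2) *
    ‖DP N (fun n => ((w n : ℝ) : ℂ)) u‖ ^ 2) ∧
  JJ N w H t ≤ 2 * H * ((∑ n ∈ Finset.Ioc N (2 * N), w n ^ 2) + 2 * ∑ h ∈ Finset.Ioo 0 N,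
    ‖∑ n ∈ Finset.Ioc N (2 * N - h), ((w n * w (n + h) * gg H h n : ℝ) : ℂ) * PH t h n‖)

/-- **ABL** (short). uses: nothing. Abel summation, `A c = ∑ n ∈ Ioc a c, z n`: `∑ v n z n = v b A b - ∑ n ∈ Ioo a b, (v (n+1) - v n) A n`. (Also true for `a = b`.) -/
def ABL_stmt : Prop := ∀ (v : ℕ → ℝ) (z : ℕ → ℂ) (a b : ℕ) (M : ℝ), a ≤ b →
  (∀ c, a ≤ c → c ≤ b → ‖∑ n ∈ Finset.Ioc a c, z n‖ ≤ M) →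
  ‖∑ n ∈ Finset.Ioc a b, ((v n : ℝ) : ℂ) * z n‖ ≤
    M * (|v b| + ∑ n ∈ Finset.Ioo a b, |v (n + 1) - v n|)

/-- **WGT** (medium). uses: nothing. The variation of `v n = w n w (n+h) gg H h n` on `(N, 2N-h]`. `lg h n` is positive and decreasing in `n`, so `gg` is increasing in `n`; `n + h ≤ 2N` gives
`lg h n = -log (1 - h/(n+h)) ≥ h/(n+h) ≥ h/(2N)`, so `0 ≤ gg ≤ G = exp (-(H h/(2N))²/4)` and its variation is at most `G`. `|v (n+1) - v n| ≤ |Δ w n| G + |Δ w (n+h)| G + |Δ gg|`.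
(`(H h/(2N))²/4 = (h/(4N/H))²`.) -/
def WGT_stmt : Prop := ∀ (N h : ℕ) (w : ℕ → ℝ) (B H : ℝ), 1 ≤ h → h < N → 0 < H → 0 ≤ B →
  Wt N B w → |w (2 * N - h) * w (2 * N - h + h) * gg H h (2 * N - h)| +
    ∑ n ∈ Finset.Ioo N (2 * N - h), |w (n + 1) * w (n + 1 + h) * gg H h (n + 1) -
      w n * w (n + h) * gg H h n| ≤
    (2 * B + 3) * Real.exp (-((h : ℝ) / (4 * N / H)) ^ 2)

/-- **OFF** (short). uses: INT_stmt, ABL_stmt, WGT_stmt. -/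
def OFF_stmt : Prop := ∀ (N : ℕ) (w : ℕ → ℝ) (B H t : ℝ) (M : ℕ → ℝ), 1 ≤ N → 0 < H → 0 ≤ B →
  Wt N B w → (∀ h ∈ Finset.Ioo 0 N, ∀ c, N ≤ c → c ≤ 2 * N - h →
    ‖∑ n ∈ Finset.Ioc N c, PH t h n‖ ≤ M h) →
  JJ N w H t ≤ 2 * H * ((N : ℝ) + 2 * ∑ h ∈ Finset.Ioo 0 N,
    (2 * B + 3) * (Real.exp (-((h : ℝ) / (4 * N / H)) ^ 2) * M h))

/-- **SUMH** (short/medium). uses: nothing. `h ≤ K`: `∑ h ≤ K, h^s ≤ 2 K^(1+s)` (compare with the integral, or dyadically). `h > K`: `exp (-x²) ≤ 2/x⁴`, `∑ h > K, h^(s-4) K⁴ ≤ C K^(1+s)`; or: for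
`h/K ∈ (k, k+1]`, `k ≥ 1`, at most `K + 1` terms of size `≤ ((k+1) K)^(1/2)…`. -/
def SUMH_stmt : Prop := ∃ C : ℝ, 0 < C ∧ ∀ (s K : ℝ) (M : ℕ), -(1 / 2) ≤ s → s ≤ 1 / 2 → 1 ≤ K →
  ∑ h ∈ Finset.Ioo 0 M, (h : ℝ) ^ s * Real.exp (-((h : ℝ) / K) ^ 2) ≤ C * K ^ (1 + s)

/-- **MSQ** (medium, numbers). uses: OFF_stmt, E2_stmt, E3_stmt, SUMH_stmt. `K = 4N/H ≥ 2`. Diagonal: `2HN ≤ 4 N^(3/2) H^(1/2)` (`H ≤ 2N`).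
(a) `N ≤ T^(1/3) H^(2/3)`: `M h` from E3 (`t = T`); SUMH with `s = ±1/6`: `H (T^(1/6) N^(1/3) (N/H)^(7/6) + N^(7/6) T^(-1/6) (N/H)^(5/6)) = T^(1/6) N^(3/2) H^(-1/6) + N² T^(-1/6) H^(1/6)
≤ 2 N^(3/2) H^(1/2)`: `T^(1/6) ≤ H^(2/3)` and `N^(1/2) ≤ T^(1/6) H^(1/3)`. (b) `N > T^(1/3) H^(2/3)`: E2, `s = ±1/2`: `T^(1/2) N H^(-1/2) + N² T^(-1/2) H^(1/2) ≤ 2 N^(3/2) H^(1/2)`:
`T ≤ T^(1/3) H^(8/3) ≤ N H²` (`H^(8/3) ≥ T^(2/3)`) and `N ≤ T`. -/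
def MSQ_stmt : Prop := ∃ C : ℝ, 0 < C ∧ ∀ (T H B : ℝ) (N : ℕ) (w : ℕ → ℝ), 1 ≤ T →
  T ^ (1 / 4 : ℝ) ≤ H → H ≤ T → H ≤ 2 * N → (N : ℝ) ≤ T → 0 ≤ B → Wt N B w →
  JJ N w H T ≤ C * (B + 1) * ((N : ℝ) ^ (3 / 2 : ℝ) * H ^ (1 / 2 : ℝ))

/-- **SOB** (medium). uses: INT_stmt. `G(u) = N^(iu) DP N w u = ∑ w n exp(-iu log(n/N))`, `‖G‖ = ‖DP N w u‖`, `‖G'(u)‖ = ‖DP N (w log(·/N)) u‖`. For `s ∈ W`: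
`‖G s‖² ≤ ∫ u in s-1/2..s+1/2, (2 ‖G u‖² + ‖G' u‖²)` (mean value over the unit interval, derivative of `‖G‖²`, `2ab ≤ a² + b²`). The unit intervals around the points of `W` are essentially
disjoint and there `exp(-((u-t)/H)²) ≥ exp(-9/4) ≥ 1/10` (`|u - t| ≤ H + 1/2 ≤ 3H/2`). -/
def SOB_stmt : Prop := ∀ (N : ℕ) (w : ℕ → ℝ) (H t : ℝ) (W : Finset ℝ), 1 ≤ N → 1 ≤ H →
  (∀ s ∈ W, |s - t| ≤ H) → (∀ s ∈ W, ∀ s' ∈ W, s ≠ s' → 1 ≤ |s - s'|) →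
  ∑ s ∈ W, ‖DP N (fun n => ((w n : ℝ) : ℂ)) s‖ ^ 2 ≤
    30 * (JJ N w H t + JJ N (fun n => w n * Real.log ((n : ℝ) / N)) H t)

/-- **WTJ** (short/medium). uses: nothing. `(N/n)^σ` is decreasing, `log(n/N)^j` is increasing in `n`, both in `[0, 1]`; variation of the product `≤ 1 + 1`. -/
def WTJ_stmt : Prop := ∀ (N j : ℕ) (σ : ℝ), 1 ≤ N → 0 ≤ σ → Wt N 2 (ww N σ j) ∧
  (∀ n ∈ Finset.Ioc N (2 * N), 0 ≤ ww N σ j n) ∧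
  ∀ n, ww N σ j n * Real.log ((n : ℝ) / N) = ww N σ (j + 1) n

/-- **MVW** (short). uses: SOB_stmt, MSQ_stmt, WTJ_stmt. `t = T`. (`H ≥ T^(1/4) ≥ 1`; `2N ≥ H ≥ 1` so `N ≥ 1`.) -/
def MVW_stmt : Prop := ∃ C : ℝ, 0 < C ∧ ∀ (T H σ : ℝ) (N j : ℕ) (W : Finset ℝ), 1 ≤ T →
  T ^ (1 / 4 : ℝ) ≤ H → H ≤ T → 0 ≤ σ → H ≤ 2 * N → (N : ℝ) ≤ T →
  (∀ t ∈ W, T ≤ t ∧ t ≤ T + H) → (∀ s ∈ W, ∀ s' ∈ W, s ≠ s' → 1 ≤ |s - s'|) →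
  ∑ t ∈ W, ‖DP N (fun n => ((ww N σ j n : ℝ) : ℂ)) t‖ ^ 2 ≤
    C * ((N : ℝ) ^ (3 / 2 : ℝ) * H ^ (1 / 2 : ℝ))

/-! ## Part 3: detection of zeros -/

/-- **KLZ** (medium). uses: KL_stmt, ABL_stmt. `n^(-iγ) = ee (f n)`, `f n = -(γ/2π) log n`, `f (n+1) - f n = -(γ/2π) log (1 + 1/n)` is increasing, at least `-1/π ≥ -1 + l` and at most
`-(γ/2π)/(n+1) ≤ -l` with `l = T/(4πN)` (`n + 1 ≤ 2N`): KL with `m = -1` gives `‖∑ n ∈ Ioc N c, n^(-iγ)‖ ≤ 8πN/T`. ABL with `v n = n^(-Re ρ)` (decreasing): the factor is `≤ N^(-Re ρ)`. -/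
def KLZ_stmt : Prop := ∃ C : ℝ, 0 < C ∧ ∀ (T : ℝ) (N b : ℕ) (ρ : ℂ), 1 ≤ T → T ≤ (N : ℝ) → N ≤ b →
  b ≤ 2 * N → 1 / 2 ≤ ρ.re → ρ.re ≤ 1 → T ≤ ρ.im → ρ.im ≤ 2 * T →
  ‖∑ n ∈ Finset.Ioc N b, (n : ℂ) ^ (-ρ)‖ ≤ C * ((N : ℝ) ^ (1 - ρ.re) / T)

/-- **EM** (medium). uses: nothing; library: `Pool.Agent.helper85.LD.G1` (`ζ(s) = 1 + 1/(s-1) - s ∫_1^∞ {u} u^(-s-1) du` as a series, `h85_*`). First order Euler–Maclaurin at a zero: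
`∑ n ≤ N, n^(-s) = ζ(s) + N^(1-s)/(1-s) + E`, `‖E‖ ≤ 1·N^(-σ) + |s| ∫_N^∞ u^(-σ-1) du ≤ C |s| N^(-σ)` (`σ ≥ 1/2`), `|s| ≤ 2 Im s`, `|1 - s| ≥ Im s`. -/
def EM_stmt : Prop := ∃ C : ℝ, 0 < C ∧ ∀ (ρ : ℂ) (N : ℕ), riemannZeta ρ = 0 → 1 / 2 ≤ ρ.re →
  ρ.re ≤ 1 → 1 ≤ ρ.im → 1 ≤ N → ‖∑ n ∈ Finset.Icc 1 N, (n : ℂ) ^ (-ρ)‖ ≤
    C * ((N : ℝ) ^ (1 - ρ.re) / ρ.im + ρ.im * (N : ℝ) ^ (-ρ.re))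

/-- **MOL** (short/medium). uses: nothing. Group the products `m n = k`. For `1 < k ≤ X` every divisor `m` of `k` has `m ≤ X` and `k/m ≤ Y`, so `cY = ∑ μ = 0`; `k = 1` gives `1`. `‖μ‖ ≤ 1`. -/
def MOL_stmt : Prop := ∀ X Y : ℕ, 1 ≤ X → X ≤ Y → (∀ k, ‖cY X Y k‖ ≤ d k) ∧ ∀ s : ℂ,
  (∑ m ∈ Finset.Icc 1 X, ((ArithmeticFunction.moebius m : ℤ) : ℂ) * (m : ℂ) ^ (-s)) *
    (∑ n ∈ Finset.Icc 1 Y, (n : ℂ) ^ (-s)) =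
  1 + ∑ k ∈ Finset.Ioc X (X * Y), cY X Y k * (k : ℂ) ^ (-s)

/-- **DTC** (short/medium). uses: EM_stmt, MOL_stmt. `1 = M(ρ) P_Y(ρ) - ∑ cY…`, `P_Y = P_(2^J Y) - ∑ n ∈ Ioc Y (2^J Y)`, `‖M(ρ)‖ ≤ X ≤ T^δ`, and EM: `‖P_(2^J Y)(ρ)‖ ≤ C ((2T²)^(1/4)/T + 2 T (T²)^(-3/4)) ≤ C' T^(-1/2)`;
`C' T^(δ-1/2) ≤ 1/2` for large `T`. (`Re ρ < 1`: `riemannZeta_ne_zero_of_one_le_re`.) -/
def DTC_stmt : Prop := ∀ δ : ℝ, 0 < δ → δ ≤ 1 / 8 → ∃ T₀ : ℝ, ∀ T : ℝ, T₀ ≤ T →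
  ∀ X Y J : ℕ, 1 ≤ X → (X : ℝ) ≤ T ^ δ → X ≤ Y → T ^ 2 ≤ (2 : ℝ) ^ J * Y →
  (2 : ℝ) ^ J * Y ≤ 2 * T ^ 2 → ∀ ρ : ℂ, riemannZeta ρ = 0 → 3 / 4 ≤ ρ.re → T ≤ ρ.im →
  ρ.im ≤ 2 * T →
    1 / 2 ≤ ‖∑ k ∈ Finset.Ioc X (X * Y), cY X Y k * (k : ℂ) ^ (-ρ)‖ +
      T ^ δ * ‖∑ n ∈ Finset.Ioc Y (2 ^ J * Y), (n : ℂ) ^ (-ρ)‖

/-- **TAZ** (short). uses: `Pool.Agent.DH.TAY_stmt` (library `helper26/DH/TAY`). TAY with `C₁ = 1`, `T² ` for `T`, `κ`, and the coefficients `T^κ c n` (norm `≤ T^(2κ) = (T²)^κ`; `1/log T² ≤ 1 ≤ T^κ ‖∑‖`). It gives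
`N^σ/(4 log T²) ≤ T^κ ‖DP‖`, and `8 log T ≤ T^κ` for large `T`. `ww` is the weight of TAY. -/
def TAZ_stmt : Prop := ∀ κ : ℝ, 0 < κ → κ ≤ 1 → ∃ T₀ : ℝ, ∀ T : ℝ, T₀ ≤ T →
  ∀ (σ : ℝ) (c : ℕ → ℂ) (N : ℕ) (ρ : ℂ), 1 / 2 ≤ σ → 1 ≤ N → (N : ℝ) ≤ T ^ 2 →
  (∀ n ∈ Finset.Ioc N (2 * N), ‖c n‖ ≤ T ^ κ) → σ ≤ ρ.re → ρ.re ≤ 1 →
  T ^ (-κ) ≤ ‖∑ n ∈ Finset.Ioc N (2 * N), c n * (n : ℂ) ^ (-ρ)‖ →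
  ∃ j ∈ Finset.range (⌊16 * Real.log T⌋₊ + 1), (N : ℝ) ^ σ * T ^ (-(2 * κ)) ≤
    ‖DP N (fun n => c n * ((ww N σ j n : ℝ) : ℂ)) ρ.im‖

/-- **SEP** (medium). uses: nothing; library: `local_count` (`helper63/ED/LC`). Colour `ρ` by the parity of `⌊Im ρ⌋₊`; one of the two colours contains at least half of the occupied unit intervals; choose one zero in each of them
(`Finset` choice, e.g. by `Finset.exists_subset_injOn_image_eq` or by induction); two of them have floors which differ by at least 2. Every unit interval contains at most `C log T` elements of `Z`. -/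
def SEP_stmt : Prop := ∃ C : ℝ, 0 < C ∧ ∀ T : ℝ, 2 ≤ T → ∀ Z : Finset ℂ,
  (∀ ρ ∈ Z, riemannZeta ρ = 0 ∧ 1 / 2 ≤ ρ.re ∧ T ≤ ρ.im ∧ ρ.im ≤ 2 * T) →
  ∃ W : Finset ℂ, W ⊆ Z ∧ (∀ ρ ∈ W, ∀ ρ' ∈ W, ρ ≠ ρ' → 1 ≤ |ρ.im - ρ'.im|) ∧
    (Z.card : ℝ) ≤ C * Real.log T * W.card

/-! ## Part 4: the two classes -/

/-- **CL2** (medium). uses: KLZ_stmt, TAZ_stmt, MVW_stmt. Class two. `CR_dyadic`: `Ioc Y (2^J Y)` is the union of the blocks `Ioc N (2N)`, `N = 2^i Y`, `i < J ≤ 4 log T` (`2^J ≤ 2 T²`). Blocks with `N ≥ T` (`N ≤ 2T²`): at most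
`C (2T²)^(1/4)/T ≤ C' T^(-1/2)` each (KLZ), all together at most `T^(-δ)/8`. So for every `ρ ∈ W` some block with `N < T` has norm `≥ T^(-δ)/(8 J) ≥ T^(-2δ)`: TAZ with `κ = 2δ`, `c = 1`: some `j ≤ 16 log T` with
`N^σ T^(-4δ) ≤ ‖DP N (ww N σ j) γ‖`. For fixed `(i, j)`: MVW (the ordinates): `card · N^(2σ) T^(-8δ) ≤ C N^(3/2) H^(1/2)`, `card ≤ C T^(8δ) N^(3/2-2σ) H^(1/2) ≤ 2 C T^(8δ) H^(2-2σ)`, as `N ≥ Y ≥ H/2` and `-1/2 ≤ 3/2 - 2σ ≤ 0`.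
Number of the pairs `(i, j)`: `≤ T^(2δ)` for large `T`. -/
def CL2_stmt : Prop := ∀ δ : ℝ, 0 < δ → δ ≤ 1 / 16 → ∃ C T₀ : ℝ, 0 < C ∧ ∀ T H σ : ℝ, T₀ ≤ T →
  T ^ (1 / 4 : ℝ) ≤ H → H ≤ T → 3 / 4 ≤ σ → σ ≤ 1 → ∀ Y J : ℕ, H ≤ 2 * Y → (Y : ℝ) ≤ T →
  T ^ 2 ≤ (2 : ℝ) ^ J * Y → (2 : ℝ) ^ J * Y ≤ 2 * T ^ 2 → ∀ W : Finset ℂ,
  (∀ ρ ∈ W, σ ≤ ρ.re ∧ ρ.re ≤ 1 ∧ T ≤ ρ.im ∧ ρ.im ≤ T + H) →
  (∀ ρ ∈ W, ∀ ρ' ∈ W, ρ ≠ ρ' → 1 ≤ |ρ.im - ρ'.im|) →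
  (∀ ρ ∈ W, 1 / 4 ≤ T ^ δ * ‖∑ n ∈ Finset.Ioc Y (2 ^ J * Y), (n : ℂ) ^ (-ρ)‖) →
  (W.card : ℝ) ≤ C * T ^ (10 * δ) * H ^ (2 * (1 - σ))

/-- **LVS** (short). uses: nothing; library: `Pool.Agent.LV.large_values` (`helper86/LV/All`). The large values theorem for `V > N^(3/4)`, on any interval: put `n^(-iT₁)` into the coefficients (see the first case of
`Pool/Agent/Results/MP_4467b5_nt/LargeValues.lean`; copy). -/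
def LVS_stmt : Prop := ∀ ε : ℝ, 0 < ε → ∃ C : ℝ, 0 < C ∧
  ∀ (T T₁ : ℝ) (N : ℕ) (a : ℕ → ℂ) (V : ℝ) (W : Finset ℝ), 1 ≤ T → 1 ≤ N → (N : ℝ) ≤ T → 0 < V →
  (∀ t ∈ W, T₁ ≤ t ∧ t ≤ T₁ + T) → (∀ t ∈ W, ∀ s ∈ W, t ≠ s → 1 ≤ |t - s|) →
  (∀ t ∈ W, V ≤ ‖DP N a t‖) →
  C * T ^ ε * (N : ℝ) ^ (1 / 2 : ℝ) * ∑ n ∈ Finset.Ioc N (2 * N), ‖a n‖ ^ 2 ≤ V ^ 2 →
  (W.card : ℝ) ≤ C * T ^ ε * (N * (∑ n ∈ Finset.Ioc N (2 * N), ‖a n‖ ^ 2) / V ^ 2 +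
    T ^ (1 / 2 : ℝ) * N * (∑ n ∈ Finset.Ioc N (2 * N), ‖a n‖ ^ 2) ^ 2 / V ^ 4)

/-- **CPK** (short/medium). uses: nothing. Choice of the power. `T` large: `N ≥ T^δ/2 ≥ T^(δ/2) > 1`. If `N ≥ H^(1/2)`: `k = 1`. Otherwise `k = ⌊log H/log N⌋₊`: `N^k ≤ H < N^(k+1)`, `N^k > H/N > H^(1/2)`,
`k ≤ log T/((δ/2) log T) = 2/δ`. -/
def CPK_stmt : Prop := ∀ δ : ℝ, 0 < δ → δ ≤ 1 / 16 → ∃ T₀ : ℝ, ∀ T H : ℝ, T₀ ≤ T →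
  T ^ (1 / 4 : ℝ) ≤ H → H ≤ T → ∀ N : ℕ, T ^ δ / 2 ≤ (N : ℝ) → (N : ℝ) ≤ H * T ^ δ →
  ∃ k : ℕ, 1 ≤ k ∧ (k : ℝ) ≤ 4 / δ ∧ H ^ (1 / 2 : ℝ) ≤ (N : ℝ) ^ k ∧ (N : ℝ) ^ k ≤ H * T ^ δ

/-- **PWB** (short/medium). uses: nothing; library: `pow_poly` (`helper63/ED/PW`), `CR_dyadic` (`helper71/ED/CR`). `DP N a t ^ k = ∑ n ∈ Ioc (N^k) (2^k N^k), b n n^(-it)` (`pow_poly` with `s = i t`), the sum of the `k` blocks `DP (2^i N^k) b t`,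
`i < k`; one of them has norm `≥ V^k/k`. -/
def PWB_stmt : Prop := ∀ (N : ℕ) (a : ℕ → ℂ) (B V : ℝ) (k : ℕ), 1 ≤ N → 0 ≤ B → 0 ≤ V → 1 ≤ k →
  (∀ n ∈ Finset.Ioc N (2 * N), ‖a n‖ ≤ B) → ∃ b : ℕ → ℂ, (∀ n, ‖b n‖ ≤ B ^ k * d n ^ k) ∧
    ∀ t : ℝ, V ≤ ‖DP N a t‖ → ∃ i ∈ Finset.range k, V ^ k / k ≤ ‖DP (2 ^ i * N ^ k) b t‖

/-- **NUM** (medium, numbers). uses: nothing. `η = s₀ - 3/4`, `ε' = min (ε/16) (η/64)`, `κ = δ min ε η / 1000`, `x = 16 κ/δ ≤ min ε η / 60`. `H T^(2δ) ≤ T²`, so `(H T^(2δ))^ε' ≤ T^(2ε')`. First claim: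
`C₁ T^(2ε') M^(1/2) C₂ M T^x ≤ C₂⁻¹ M^(2σ) T^(-x) ≤ V²` because `M^(2σ-3/2) ≥ (T^(1/8))^(2η) = T^(η/4)` and `2ε' + 2x < η/4` (`M ≥ H^(1/2) ≥ T^(1/8)`, `T` large). Second: `M G/V² ≤ C₂² M^(2-2σ) T^(2x)`,
`M^(2-2σ) ≤ (H T^(2δ))^(2-2σ) ≤ H^(2-2σ) T^δ` (`2 - 2σ ≤ 1/2`); `(H T^(2δ))^(1/2) M G²/V⁴ ≤ H^(1/2) T^δ C₂⁴ M^(3-4σ) T^(4x)`, `M^(3-4σ) ≤ H^((3-4σ)/2)` (`3 - 4σ < 0`); `2ε' + 4x + δ ≤ ε`. -/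
def NUM_stmt : Prop := ∀ s₀ ε δ : ℝ, 3 / 4 < s₀ → s₀ ≤ 1 → 0 < ε → 0 < δ → δ ≤ ε / 4 →
  δ ≤ 1 / 16 → ∃ κ ε' : ℝ, 0 < κ ∧ κ ≤ 1 ∧ 0 < ε' ∧ ∀ C₁ C₂ : ℝ, 0 < C₁ → 0 < C₂ →
  ∃ C T₀ : ℝ, 0 < C ∧ ∀ T H σ M G V : ℝ, T₀ ≤ T → T ^ (1 / 4 : ℝ) ≤ H → H ≤ T → s₀ ≤ σ → σ ≤ 1 →
  H ^ (1 / 2 : ℝ) ≤ M → M ≤ H * T ^ (2 * δ) → 0 ≤ G → G ≤ C₂ * (M * T ^ (16 * κ / δ)) → 0 < V →
  M ^ (2 * σ) * T ^ (-(16 * κ / δ)) ≤ C₂ * V ^ 2 →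
    C₁ * (H * T ^ (2 * δ)) ^ ε' * M ^ (1 / 2 : ℝ) * G ≤ V ^ 2 ∧
    C₁ * (H * T ^ (2 * δ)) ^ ε' * (M * G / V ^ 2 +
      (H * T ^ (2 * δ)) ^ (1 / 2 : ℝ) * M * G ^ 2 / V ^ 4) ≤ C * T ^ ε * H ^ (2 * (1 - σ))

/-- **CL1** (LONG). uses: LVS_stmt, CPK_stmt, PWB_stmt, NUM_stmt; library: `divisor_bound` (`helper59/DM/DV`). Class one. wlog `s₀ ≤ 1` (otherwise there is no `σ`). `δ₀ = min (ε/8) (1/16)`; `κ, ε'` from NUM with `ε/2`. `k` from CPK (`k ≤ 4/δ`),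
PWB with `B = T^κ`, `V = N^σ T^(-2κ)`: the points of `W` lie in `k` sets `W_i`, on which `‖DP M b t‖ ≥ V₁ = V^k/k`, `M = 2^i N^k`. `M ≥ H^(1/2)`, `M ≤ 2^k H T^δ ≤ H T^(2δ)` (`2^(4/δ) ≤ T^δ` for large `T`). For `n ≤ 2M ≤ T³`:
`‖b n‖ ≤ T^(κk) d(n)^k ≤ C T^(8κ/δ)` (`divisor_bound` with `κ/3`: `d n ≤ C T^κ`, `d(n)^k ≤ C^k T^(κk)`, `κ k ≤ 4κ/δ`), so `G = ∑ ‖b n‖² ≤ C₂ M T^(16κ/δ)`. `V₁² = N^(2kσ) T^(-4κk)/k² ≥ (M/2^k)^(2σ) T^(-16κ/δ) δ²/16`.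
LVS with the interval length `H T^(2δ) ≥ H`, `T₁ = T`, and NUM: `card W_i ≤ C T^(ε/2) H^(2(1-σ))`. The constants `2^k`, `k` are at most constants depending on `δ`. -/
def CL1_stmt : Prop := ∀ s₀ ε : ℝ, 3 / 4 < s₀ → 0 < ε → ∃ δ₀ : ℝ, 0 < δ₀ ∧ ∀ δ : ℝ, 0 < δ →
  δ ≤ δ₀ → ∃ κ C T₀ : ℝ, 0 < κ ∧ κ ≤ 1 ∧ 0 < C ∧ ∀ T H σ : ℝ, T₀ ≤ T → T ^ (1 / 4 : ℝ) ≤ H →
  H ≤ T → s₀ ≤ σ → σ ≤ 1 → ∀ (N : ℕ) (a : ℕ → ℂ) (W : Finset ℝ), T ^ δ / 2 ≤ (N : ℝ) →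
  (N : ℝ) ≤ H * T ^ δ → (∀ n ∈ Finset.Ioc N (2 * N), ‖a n‖ ≤ T ^ κ) →
  (∀ t ∈ W, T ≤ t ∧ t ≤ T + H) → (∀ s ∈ W, ∀ s' ∈ W, s ≠ s' → 1 ≤ |s - s'|) →
  (∀ t ∈ W, (N : ℝ) ^ σ * T ^ (-(2 * κ)) ≤ ‖DP N a t‖) →
  (W.card : ℝ) ≤ C * T ^ ε * H ^ (2 * (1 - σ))

/-! ## Part 5: assembly -/

/-- **COR** (LONG). uses: SEP_stmt, DTC_stmt, MOL_stmt, CL1_stmt, CL2_stmt, TAZ_stmt, WTJ_stmt; library: `CR_dyadic`, `CR_cut`, `divisor_bound`. `δ = min δ₀ (min (ε/40) (1/16))` (`δ₀` from CL1 with `ε/4`), `κ` from CL1. SEP: `W`. `X = ⌊T^δ⌋₊` (`≥ T^δ/2`), `Y = ⌊H⌋₊`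
(`H ≤ 2Y`, `X ≤ Y`), `J` minimal with `2^J Y ≥ T²`. DTC: every `ρ ∈ W` is in class two (CL2: at most `C T^(10δ) H^(2(1-σ))`) or `1/4 ≤ ‖∑ k ∈ Ioc X (XY), cY…‖`. Class one: with the least `J'` such that `2^J' ≥ Y` (`J' ≤ 2 log T`) and
`c n = cY X Y n` for `n ≤ XY`, `0` otherwise: `CR_cut`, `CR_dyadic`: some block `Ioc N (2N)`, `N = 2^i X`, `i < J'` (so `2^i < Y`, `N < XY ≤ H T^δ ≤ T²`) has norm `≥ 1/(4J') ≥ T^(-κ)`; `‖c n‖ ≤ d n ≤ C n^(κ/6) ≤ T^κ` (`n ≤ 2XY ≤ T³`, `T` large; `d 0 = 0`). TAZ: some `j ≤ 16 log T`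
with `N^σ T^(-2κ) ≤ ‖DP N (c ww) γ‖`; CL1 for the ordinates of the `ρ` with given `(i, j)` (`Im` is injective on `W`). Number of pairs and the factor `C log T` of SEP: absorbed by `T^(ε/4)`. (`Re ρ < 1`.) -/
def COR_stmt : Prop := ∀ s₀ ε : ℝ, 3 / 4 < s₀ → 0 < ε → ∃ C T₀ : ℝ, 0 < C ∧ ∀ T H σ : ℝ,
  T₀ ≤ T → T ^ (1 / 4 : ℝ) ≤ H → H ≤ T → s₀ ≤ σ → σ ≤ 1 → ∀ Z : Finset ℂ,
  (∀ ρ ∈ Z, riemannZeta ρ = 0 ∧ σ ≤ ρ.re ∧ T ≤ ρ.im ∧ ρ.im ≤ T + H) →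
    (Z.card : ℝ) ≤ C * T ^ ε * H ^ (2 * (1 - σ))

/-- **FIN** (medium). uses: COR_stmt; library: `Pool.Agent.DH.fin` (`helper15/DH/Assembly`), `FN_low` (`helper97/ED/FN`), `mult_le` (`helper63/ED/LC`). `T₁ = max T₀ 2` (`T₀` from COR with `ε/16`). `H ≥ T^(1/4) ≥ 1`, `T ≤ H⁴`.
(a) `U < H`: `Z` is in `0 < Im ≤ 2H`: `Pool.Agent.DH.fin s₀ ε` with `T = 2H`; `(2H)^x ≤ 2^x H^x`, `x = 2(1-σ) + ε ≤ 2 + ε`. (b) `U ≥ H`, `U ≥ T₁`: COR with `T = U` (`U^(1/4) ≤ T^(1/4) ≤ H ≤ U`): `card ≤ C U^(ε/16) H^(2(1-σ))`, `mult ρ ≤ C log (2T) ≤ C' T^(ε/16)`,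
`T^(ε/8) ≤ H^(ε/2)`. (c) `H ≤ U < T₁`: `Im ρ ≤ 2 T₁`, `FN_low`, and `H^(…) ≥ 1`. -/
def FIN_stmt : Prop := ∀ s₀ ε : ℝ, 3 / 4 < s₀ → 0 < ε → ∃ C : ℝ, 0 < C ∧ ∀ T U H σ : ℝ, 1 ≤ T →
  0 ≤ U → T ^ (1 / 4 : ℝ) ≤ H → U + H ≤ T → s₀ ≤ σ → σ ≤ 1 → ∀ Z : Finset ℂ,
  (∀ ρ ∈ Z, riemannZeta ρ = 0 ∧ σ ≤ ρ.re ∧ U < ρ.im ∧ ρ.im ≤ U + H) →
    ∑ ρ ∈ Z, (mult ρ : ℝ) ≤ C * H ^ (2 * (1 - σ) + ε)

end Pool.Agent.LDH
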