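import Pool.Agent.helper5.LDH.Spec
import Pool.Agent.helper26.DH.TAY
import Pool.Agent.helper18.LDH.KL
import Pool.Agent.helper90.LDH.V2
import Pool.Agent.helper61.LDH.WD
import Pool.Agent.helper87.LDH.V3
import Pool.Agent.helper28.LDH.PHD
import Pool.Agent.helper48.LDH.E2
import Pool.Agent.helper48.LDH.E3
import Pool.Agent.helper31.LDH.INT
import Pool.Agent.helper63.LDH.ABL
import Pool.Agent.helper24.LDH.WGT
import Pool.Agent.helper68.LDH.OFF
import Pool.Agent.helper22.LDH.SUMH
import Pool.Agent.helper93.LDH.MSQ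
import Pool.Agent.helper20.LDH.SOB
import Pool.Agent.helper44.LDH.WTJ
import Pool.Agent.helper64.LDH.MVW
import Pool.Agent.helper40.LDH.KLZ
import Pool.Agent.helper50.LDH.EM
import Pool.Agent.helper52.LDH.MOL
import Pool.Agent.helper23.LDH.DTC
import Pool.Agent.helper55.LDH.TAZ
import Pool.Agent.helper89.LDH.CL2
import Pool.Agent.helper42.LDH.LVS
import Pool.Agent.helper67.LDH.CPK
import Pool.Agent.helper49.LDH.PWB
import Pool.Agent.helper15.LDH.NUM
import Pool.Agent.helper48.LDH.CL1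
import Pool.Agent.helper98.LDH.COR
import Pool.Agent.helper72.LDH.FIN
import Pool.Agent.helper72.LDH.SEP

/-!
# Project LDH (MP_4467b5_nt): assembly of the rows
-/

set_option autoImplicit false

namespace Pool.Agent.LDH

/-- the density hypothesis for `σ > 3/4` in every interval of length at least `T^(1/4)` -/
theorem fin : FIN_stmt := by
  have hV2 : V2_stmt := V2 KL
  have hV3 : V3_stmt := V3 WD hV2
  have hOFF : OFF_stmt := OFF INT ABL WGT
  have hMSQ : MSQ_stmt := MSQ hOFF (E2 hV2 PHD) (E3 hV3 PHD) SUMH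
  have hMVW : MVW_stmt := MVW (SOB INT) hMSQ WTJ
  have hTZ : TAZ_stmt := TAZ Pool.Agent.DH.TAY
  have hCL2 : CL2_stmt := CL2 (KLZ KL ABL) hTZ hMVW
  exact FIN (COR SEP (DTC EM MOL) MOL (CL1 LVS CPK PWB NUM) hCL2 hTZ WTJ)

end Pool.Agent.LDH
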